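import Pool.Agent.Helper33.IR.Goals

set_option autoImplicit false

namespace Pool.Agent.Helper72.IR

open Pool.Agent.Helper33.IR

theorem absdiff {x x' e : ℝ} (h : x * (x + e) < 0) (h' : x' * (x' + e) < 0) :
    |x' - x| < |e| := by
  rcases lt_trichotomy e 0 with he | he | he
  · have h1 : 0 < x := by nlinarith
    have h2 : x < -e := by nlinarith
    have h3 : 0 < x' := by nlinarith
    have h4 : x' < -e := by nlinarith
    rw [abs_of_neg he, abs_lt]
    constructor <;> linarith
  · subst he
    nlinarith [mul_self_nonneg x]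
  · have h1 : x < 0 := by nlinarith
    have h2 : -e < x := by nlinarith
    have h3 : x' < 0 := by nlinarith
    have h4 : -e < x' := by nlinarith
    rw [abs_of_pos he, abs_lt]
    constructor <;> linarith

theorem gCN3 : G_CN3 := by
  intro q p q' p' hB t S hS
  have hq' : 0 < q' := by have := hB.lt; omega
  have hl3 : (1 : ℝ) / 20 < Real.log 3 := by
    have h := Real.add_one_le_exp ((1 : ℝ) / 20)
    have h2 : Real.exp (1 / 20) < 3 := by
      have := Real.exp_one_lt_d9
      have h3 : Real.exp ((1 : ℝ) / 20) ≤ Real.exp 1 := Real.exp_le_exp.2 (by norm_num)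
      linarith
    exact (Real.lt_log_iff_exp_lt (by norm_num)).2 h2
  have hl4 : 0 < Real.log 4 := Real.log_pos (by norm_num)
  have key : ∀ b ∈ S, ∀ b' ∈ S, b < b' → q' ≤ b' - b := by
    intro b hb b' hb' hlt
    obtain ⟨_, _, m, hm, hx⟩ := hS b hb
    obtain ⟨_, _, m', hm', hx'⟩ := hS b' hb'
    have h1 := absdiff hx hx'
    have h1' : |lin (b' : ℤ) m' - lin (b : ℤ) m| < |lin q p| := by
      have e : lin (b' : ℤ) m' - Real.log t - (lin (b : ℤ) m - Real.log t)
          = lin (b' : ℤ) m' - lin (b : ℤ) m := by ring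
      rwa [e] at h1
    by_contra hcon
    push Not at hcon
    have hmm : m ≤ m' := by
      by_contra hlt'
      push Not at hlt'
      have hs := hB.small
      have h2 : lin (b' : ℤ) m' - lin (b : ℤ) m < 1 / 20 := by
        have := le_abs_self (lin (b' : ℤ) m' - lin (b : ℤ) m)
        linarith
      have e : lin (b' : ℤ) m' - lin (b : ℤ) m
          = ((b' : ℝ) - b) * Real.log 3 + ((m : ℝ) - m') * Real.log 4 := by
        unfold lin; push_cast; ring
      rw [e] at h2
      have h3 : (1 : ℝ) ≤ (b' : ℝ) - b := by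
        have : (b : ℝ) + 1 ≤ b' := by exact_mod_cast hlt
        linarith
      have h4 : (0 : ℝ) ≤ (m : ℝ) - m' := by
        have : (m' : ℝ) ≤ m := by exact_mod_cast hlt'.le
        linarith
      have h5 : 1 * Real.log 3 ≤ ((b' : ℝ) - b) * Real.log 3 :=
        mul_le_mul_of_nonneg_right h3 (by linarith)
      have h6 : 0 ≤ ((m : ℝ) - m') * Real.log 4 := mul_nonneg h4 hl4.le
      linarith
    have hbest := hB.best (b' - b) (m' - m) (by omega) hcon
    have e : lin ((b' - b : ℕ) : ℤ) ((m' - m : ℕ) : ℤ) = lin (b' : ℤ) m' - lin (b : ℤ) m := by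
      rw [Nat.cast_sub hlt.le, Nat.cast_sub hmm]
      unfold lin; push_cast; ring
    rw [e] at hbest
    linarith
  have hcard : S.card ≤ (Finset.range 6).card := by
    refine Finset.card_le_card_of_injOn (fun b => (b - 1) / q') ?_ ?_
    · intro b hb
      obtain ⟨h1, h2, _⟩ := hS b hb
      simp only [Finset.coe_range, Set.mem_Iio]
      rw [Nat.div_lt_iff_lt_mul hq']
      omega
    · intro b hb b' hb' hbb
      simp only at hbb
      obtain ⟨h1, _, _⟩ := hS b hb
      obtain ⟨h1', _, _⟩ := hS b' hb'
      have d1 := Nat.div_add_mod (b - 1) q'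
      have d2 := Nat.div_add_mod (b' - 1) q'
      have m1 := Nat.mod_lt (b - 1) hq'
      have m2 := Nat.mod_lt (b' - 1) hq'
      rw [hbb] at d1
      rcases lt_trichotomy b b' with h | h | h
      · have := key b hb b' hb' h
        omega
      · exact h
      · have := key b' hb' b hb h
        omega
  simpa using hcard

end Pool.Agent.Helper72.IR
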